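import Pool.Agent.P.MP_8db816_gt.SZ.Psi
import Pool.Agent.P.MP_8db816_gt.SZ.Six
import Pool.Agent.P.MP_8db816_gt.KTheory

/-! The index map for proper actions is not injective for `(ℤ/3)²` in degree `0`. A point is a
model of the universal proper space of a finite group. -/

namespace Pool.Agent.Old.MP_8db816_gt.NotInj

open Pool.Agent.P.MP_8db816_gt

theorem result (𝔅 : SZ.Bott)
    (Θ : SZ.Rgrp (Multiplicative (ZMod 3 × ZMod 3)) 𝔅 →+
      K0 (redAlg (Multiplicative (ZMod 3 × ZMod 3)))) : ¬ Function.Injective Θ := by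
  intro h
  obtain ⟨v, hv⟩ := SZ.exists_indep 𝔅 _ SZ.six_subgroups
  exact K0_rank _ (hv.map' Θ.toIntLinearMap (LinearMap.ker_eq_bot.2 h))

end Pool.Agent.Old.MP_8db816_gt.NotInj
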